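import Pool.Agent.Helper93.TLE.StB

/-!
# Project TLE, module B3b: the values at words of the symbols of level 25

Every symbol of level 25 has the same values at words as a symbol in the space `V25` of the
symbols with `W = -1`, `* = +1`; on `V25` these values factor through two coordinates (BS5).
-/

set_option autoImplicit false

namespace Pool.Agent.Helper43.TLE

open Pool.Agent.Helper14.CV (Homog EqC act Tl StFar StFex)
open Pool.Agent.Helper28.WK (Tw evw)
open Pool.Agent.Helper4.TL Pool.Agent.Helper93.TLE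

private theorem evw_add (ls : List ℕ) (G H : ℤ → ℤ → ℂ) :
    evw 2 ls (G + H) = evw 2 ls G + evw 2 ls H := by
  simp only [evw, Pool.Agent.Helper14.W5.Tw_add, Pi.add_apply]; ring

private theorem evw_smul (ls : List ℕ) (s : ℂ) (G : ℤ → ℤ → ℂ) :
    evw 2 ls (s • G) = s * evw 2 ls G := by
  simp only [evw, Pool.Agent.Helper14.W5.Tw_smul, Pi.smul_apply, smul_eq_mul]; ring

private theorem evw_neg (ls : List ℕ) (G : ℤ → ℤ → ℂ) : evw 2 ls (-G) = -evw 2 ls G := by
  have := evw_smul ls (-1) G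
  rw [neg_one_smul] at this
  rw [this]; ring

private theorem Tw_congr {G H : ℤ → ℤ → ℂ} (h : EqC G H) :
    ∀ ls : List ℕ, OkE 5 ls → EqC (Tw 2 ls G) (Tw 2 ls H) := by
  intro ls
  induction ls with
  | nil => intro _; exact h
  | cons l ls ih =>
    intro ho
    exact (ih fun x hx => ho x (List.mem_cons_of_mem _ hx)).Tl
      (ho l List.mem_cons_self).1.pos 2

private theorem evw_congr {G H : ℤ → ℤ → ℂ} (h : EqC G H) (ls : List ℕ) (ho : OkE 5 ls) :
    evw 2 ls G = evw 2 ls H :=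
  (Tw_congr h ls ho).diff (Or.inl one_ne_zero) (Or.inr one_ne_zero)

/-- The symbols of level `25` with `W = -1`, `* = +1`. -/
private def V25 : Submodule ℂ (ℤ → ℤ → ℂ) where
  carrier := {K | SymE 5 0 2 K ∧ EqC (act 0 (-1) ((5 : ℤ) ^ 2) 0 K) (-K) ∧
    EqC (act (-1) 0 0 1 K) K}
  add_mem' := by
    rintro G H ⟨a1, a2, a3⟩ ⟨b1, b2, b3⟩
    refine ⟨SymE.add a1 b1, ?_, a3.add b3⟩
    rw [neg_add]
    exact a2.add b2
  zero_mem' := by
    refine ⟨SymE.zero 5 0 2, ?_, EqC.refl _⟩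
    rw [neg_zero]
    exact EqC.refl _
  smul_mem' := by
    rintro s G ⟨a1, a2, a3⟩
    refine ⟨SymE.smul s a1, ?_, a3.smul s⟩
    rw [← smul_neg]
    exact a2.smul s

/-- Two coordinates. -/
private def aV : V25 →ₗ[ℂ] (Fin 2 → ℂ) where
  toFun K := ![(K : ℤ → ℤ → ℂ) 1 0 - (K : ℤ → ℤ → ℂ) 1 5,
    (K : ℤ → ℤ → ℂ) 1 5 - (K : ℤ → ℤ → ℂ) 2 5]
  map_add' K L := by
    funext i
    fin_cases i <;> simp <;> ring
  map_smul' s K := by
    funext i
    fin_cases i <;> simp <;> ring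

private theorem evLE_ok (G : ℤ → ℤ → ℂ) (ls : List ℕ) (ho : OkE 5 ls) :
    evLE 5 G ls = evw 2 ls G := if_pos ho

private theorem evLE_not (G : ℤ → ℤ → ℂ) (ls : List ℕ) (ho : ¬ OkE 5 ls) :
    evLE 5 G ls = 0 := if_neg ho

private theorem evw_zero (ls : List ℕ) : evw 2 ls (0 : ℤ → ℤ → ℂ) = 0 := by
  have := evw_smul ls (0 : ℂ) (0 : ℤ → ℤ → ℂ)
  rwa [zero_smul, zero_mul] at this

private theorem ker_le (hB : Bs5) :
    LinearMap.ker aV ≤ LinearMap.ker ((evLE 5).comp V25.subtype) := by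
  intro K hK
  rw [LinearMap.mem_ker] at hK ⊢
  obtain ⟨K, k1, k2, k3⟩ := K
  have e0 := congrFun hK 0
  have e1 := congrFun hK 1
  simp only [aV, LinearMap.coe_mk, AddHom.coe_mk, Matrix.cons_val_zero, Matrix.cons_val_one,
    Pi.zero_apply] at e0 e1
  have hc := hB K k1 k2 k3 (sub_eq_zero.mp e0) (sub_eq_zero.mp e1)
  funext ls
  show evLE 5 K ls = 0
  by_cases ho : OkE 5 ls
  · rw [evLE_ok K ls ho, evw_congr hc ls ho, evw_zero]
  · exact evLE_not K ls ho

/-- Every symbol of level `25` has the same values at words as an element of `V25`. -/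
private theorem proj (hA : SEAvg) (hE : SEEv) (G : ℤ → ℤ → ℂ) (hG : SymE 5 0 2 G) :
    ∃ K ∈ V25, ∀ ls : List ℕ, OkE 5 ls → evw 2 ls G = evw 2 ls K := by
  have hS : ∀ F : ℤ → ℤ → ℂ, SymE 5 0 2 F → SymE 5 0 2 (act 0 (-1) 25 0 F) ∧
      SymE 5 0 2 (act (-1) 0 0 1 F) := by
    intro F hF
    have := (hA 5 (by norm_num) (by norm_num) 2 F le_rfl hF).2.2.2
    norm_num at this
    exact this
  have hev : ∀ F : ℤ → ℤ → ℂ, SymE 5 0 2 F → ∀ ls : List ℕ, OkE 5 ls →
      evw 2 ls (act 0 (-1) 25 0 F) = -evw 2 ls F ∧ evw 2 ls (act (-1) 0 0 1 F) = evw 2 ls F := by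
    intro F hF ls ho
    have := hE 5 (by norm_num) (by norm_num) ℂ _ 2 F hF ls ho
    norm_num at this
    exact this
  obtain ⟨H, hH⟩ : ∃ H : ℤ → ℤ → ℂ, H = G + -act 0 (-1) 25 0 G := ⟨_, rfl⟩
  have hHev : ∀ ls : List ℕ, OkE 5 ls → evw 2 ls H = 2 * evw 2 ls G := by
    intro ls ho
    rw [hH, evw_add, evw_neg, (hev G hG ls ho).1]
    ring
  have hHS : SymE 5 0 2 H := by
    rw [hH]
    exact SymE.add hG (SymE.neg (hS G hG).1)
  have hWW : EqC (act 0 (-1) 25 0 (act 0 (-1) 25 0 G)) G := by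
    rw [Pool.Agent.Helper14.CV.act_act]
    have := hG.1.scale (a := 1) (b := 0) (c := 0) (d := 1) (-25) (by norm_num) (by norm_num)
    rw [Pool.Agent.Helper14.CV.act_one] at this
    norm_num at this ⊢
    exact this
  have hHW : EqC (act 0 (-1) 25 0 H) (-H) := by
    have e1 : act 0 (-1) 25 0 H = act 0 (-1) 25 0 G - act 0 (-1) 25 0 (act 0 (-1) 25 0 G) := by
      rw [hH, ← sub_eq_add_neg]; rfl
    have e2 : -H = act 0 (-1) 25 0 G - G := by
      rw [hH, neg_add, neg_neg]; abel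
    rw [e1, e2]
    exact (EqC.refl _).sub hWW
  have hHst := (hS H hHS).2
  obtain ⟨E, hE'⟩ : ∃ E : ℤ → ℤ → ℂ, E = H + act (-1) 0 0 1 H := ⟨_, rfl⟩
  have hEev : ∀ ls : List ℕ, OkE 5 ls → evw 2 ls E = 4 * evw 2 ls G := by
    intro ls ho
    rw [hE', evw_add, (hev H hHS ls ho).2, hHev ls ho]
    ring
  have hES : SymE 5 0 2 E := by
    rw [hE']
    exact SymE.add hHS hHst
  have hEst : EqC (act (-1) 0 0 1 E) E := by
    refine EqC.of_eq fun p q _ => ?_
    rw [hE']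
    simp only [act, Pi.add_apply]
    ring_nf
  have hEW : EqC (act 0 (-1) 25 0 E) (-E) := by
    have a1 : act 0 (-1) 25 0 E = act 0 (-1) 25 0 H + act 0 (-1) 25 0 (act (-1) 0 0 1 H) := by
      rw [hE']; rfl
    have a2 : EqC (act 0 (-1) 25 0 (act (-1) 0 0 1 H)) (act (-1) 0 0 1 (act 0 (-1) 25 0 H)) := by
      refine EqC.of_eq fun p q hpq => ?_
      simp only [act]
      have := hHS.1 (-1) q (25 * p) (by norm_num) (by omega)
      norm_num at this ⊢
      exact this.symm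
    have a3 : EqC (act (-1) 0 0 1 (act 0 (-1) 25 0 H)) (act (-1) 0 0 1 (-H)) :=
      hHW.act (by norm_num)
    have a4 : -E = -H + act (-1) 0 0 1 (-H) := by
      rw [hE', neg_add]; rfl
    rw [a1, a4]
    exact hHW.add (a2.trans a3)
  have hmem : E ∈ V25 := by
    refine ⟨hES, ?_, hEst⟩
    norm_num
    exact hEW
  refine ⟨(1 / 4 : ℂ) • E, V25.smul_mem _ hmem, fun ls ho => ?_⟩
  rw [evw_smul, hEev ls ho]
  ring

/-- B3b. -/
theorem hB3b : SEB3b5 := by
  intro hA hE hB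
  obtain ⟨g, hg⟩ := LinearMap.exists_extend
    (((LinearMap.ker aV).liftQ ((evLE 5).comp V25.subtype) (ker_le hB)).comp
      aV.quotKerEquivRange.symm.toLinearMap)
  have hga : ∀ K : V25, g (aV K) = evLE 5 (K : ℤ → ℤ → ℂ) := by
    intro K
    have h1 := LinearMap.congr_fun hg (⟨aV K, LinearMap.mem_range_self aV K⟩)
    simp only [LinearMap.comp_apply, Submodule.subtype_apply, LinearEquiv.coe_coe] at h1
    rw [h1]
    have h2 : aV.quotKerEquivRange.symm ⟨aV K, LinearMap.mem_range_self aV K⟩ =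
        (LinearMap.ker aV).mkQ K := by
      rw [LinearEquiv.symm_apply_eq]
      rfl
    rw [h2]
    rfl
  refine ⟨fun i => g (Pi.single i 1), fun G hG => ?_⟩
  obtain ⟨K, hK, hGK⟩ := proj hA hE G hG
  refine ⟨aV ⟨K, hK⟩, fun ls ho => ?_⟩
  rw [hGK ls ho, ← evLE_ok K ls ho]
  have h3 := hga ⟨K, hK⟩
  have h4 := LinearMap.pi_apply_eq_sum_univ g (aV ⟨K, hK⟩)
  have h5 : evLE 5 K = ∑ i, aV ⟨K, hK⟩ i • g (Pi.single i 1) := by
    rw [← h3, h4]
    refine Finset.sum_congr rfl fun i _ => ?_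
    congr 2
    funext j
    simp [Pi.single_apply, eq_comm]
  rw [h5, Finset.sum_apply]
  rfl

end Pool.Agent.Helper43.TLE
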